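import Mathlib
import Pool.Agent.W355.FR.Stm

set_option autoImplicit false

namespace Pool.Agent.W781.FR.RADL

open Polynomial Pool.Agent.W355.FR

theorem core (n : ℕ) (hn : n ≠ 0) (z : ℕ) (L e' : ℝ) (hL : 0 ≤ L) (he : 0 ≤ e')
    (h1 : ∀ p : ℕ, p.Prime → z < p → ¬ p ^ 2 ∣ n)
    (h2 : ∀ p : ℕ, p.Prime → p ≤ z → ∀ e : ℕ, p ^ e ∣ n → (e : ℝ) * Real.log p ≤ e' * L) :
    Real.log n ≤ ((z : ℝ) + 1) * (e' * L) +
      ∑ p ∈ n.primeFactors.filter (fun p => z < p), Real.log p := by
  rw [Real.log_nat_eq_sum_factorization, Finsupp.sum, Nat.support_factorization,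
    ← Finset.sum_filter_add_sum_filter_not n.primeFactors (fun p => z < p)]
  have hA : ∑ p ∈ n.primeFactors.filter (fun p => z < p), (n.factorization p : ℝ) * Real.log p ≤
      ∑ p ∈ n.primeFactors.filter (fun p => z < p), Real.log p := by
    apply Finset.sum_le_sum
    intro p hp
    rw [Finset.mem_filter] at hp
    have hpp := Nat.prime_of_mem_primeFactors hp.1
    have h3 : n.factorization p ≤ 1 := by
      by_contra hcon
      push Not at hcon
      apply h1 p hpp hp.2
      exact (pow_dvd_pow p hcon).trans (Nat.ordProj_dvd n p)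
    have h4 : (n.factorization p : ℝ) ≤ 1 := by exact_mod_cast h3
    have h5 : 0 ≤ Real.log p := Real.log_natCast_nonneg p
    nlinarith
  have hB : ∑ p ∈ n.primeFactors.filter (fun p => ¬ z < p), (n.factorization p : ℝ) * Real.log p ≤
      ((z : ℝ) + 1) * (e' * L) := by
    calc ∑ p ∈ n.primeFactors.filter (fun p => ¬ z < p), (n.factorization p : ℝ) * Real.log p
        ≤ ∑ p ∈ n.primeFactors.filter (fun p => ¬ z < p), e' * L := by
          apply Finset.sum_le_sum
          intro p hp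
          rw [Finset.mem_filter] at hp
          have hpp := Nat.prime_of_mem_primeFactors hp.1
          exact h2 p hpp (not_lt.1 hp.2) _ (Nat.ordProj_dvd n p)
      _ = ((n.primeFactors.filter (fun p => ¬ z < p)).card : ℝ) * (e' * L) := by
          rw [Finset.sum_const, nsmul_eq_mul]
      _ ≤ ((z : ℝ) + 1) * (e' * L) := by
          apply mul_le_mul_of_nonneg_right _ (mul_nonneg he hL)
          have h6 : (n.primeFactors.filter (fun p => ¬ z < p)) ⊆ Finset.range (z + 1) := by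
            intro p hp
            rw [Finset.mem_filter] at hp
            rw [Finset.mem_range]
            have := hp.2
            omega
          have h7 := Finset.card_le_card h6
          rw [Finset.card_range] at h7
          exact_mod_cast h7
  linarith

theorem main : P_RADL := by
  classical
  intro hSQ hSMO hSMA P hirr hdeg hdeg4 ε δ hε hδ z₁
  obtain ⟨z₀, hz₀⟩ := hSQ P hirr hdeg hdeg4 (δ / 3) (by linarith)
  set z : ℕ := max z₁ z₀ with hz
  obtain ⟨H₁, hH₁⟩ := hz₀ z (le_max_right _ _)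
  set ε' : ℝ := ε / (2 * ((z : ℝ) + 1)) with hε'
  have hε'0 : 0 < ε' := by positivity
  obtain ⟨H₂, hH₂⟩ := hSMO P hdeg z ε' (δ / 3) hε'0 (by linarith)
  obtain ⟨H₃, hH₃⟩ := hSMA P hdeg (ε / 2) (δ / 3) (by linarith) (by linarith)
  refine ⟨z, le_max_left _ _, max (max H₁ H₂) (max H₃ 2), ?_⟩
  intro H hH s hs hx
  have hHa : H₁ ≤ H := le_trans (le_trans (le_max_left _ _) (le_max_left _ _)) hH
  have hHb : H₂ ≤ H := le_trans (le_trans (le_max_right _ _) (le_max_left _ _)) hH
  have hHc : H₃ ≤ H := le_trans (le_trans (le_max_left _ _) (le_max_right _ _)) hH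
  have hHd : 2 ≤ H := le_trans (le_trans (le_max_right _ _) (le_max_right _ _)) hH
  have hH0 : (0 : ℝ) < H := by exact_mod_cast (by omega : 0 < H)
  have hH1 : (1 : ℝ) < H := by exact_mod_cast (by omega : 1 < H)
  have hL : 0 < Real.log H := Real.log_pos hH1
  set s1 := s.filter (fun x => ∃ p : ℕ, p.Prime ∧ z < p ∧ (p : ℤ) ^ 2 ∣ hv P.natDegree P x.1 x.2)
    with hs1
  set s2 := s.filter (fun x => ∃ p : ℕ, p.Prime ∧ p ≤ z ∧ ∃ e : ℕ, (H : ℝ) ^ ε' < (p : ℝ) ^ e ∧
      (p : ℤ) ^ e ∣ hv P.natDegree P x.1 x.2) with hs2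
  set s3 := s.filter (fun x => |((hv P.natDegree P x.1 x.2 : ℤ) : ℝ)| ≤
      (H : ℝ) ^ ((P.natDegree : ℝ) - ε / 2)) with hs3
  have hc1 : (s1.card : ℝ) ≤ δ / 3 * (H : ℝ) ^ 2 :=
    hH₁ H hHa s1 ((Finset.filter_subset _ _).trans hs) (fun x hx => (Finset.mem_filter.1 hx).2)
  have hc2 : (s2.card : ℝ) ≤ δ / 3 * (H : ℝ) ^ 2 :=
    hH₂ H hHb s2 ((Finset.filter_subset _ _).trans hs) (fun x hx => (Finset.mem_filter.1 hx).2)
  have hc3 : (s3.card : ℝ) ≤ δ / 3 * (H : ℝ) ^ 2 :=
    hH₃ H hHc s3 ((Finset.filter_subset _ _).trans hs) (fun x hx => (Finset.mem_filter.1 hx).2)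
  have hsub : s ⊆ s1 ∪ s2 ∪ s3 := by
    intro x hxs
    by_contra hcon
    rw [Finset.mem_union, Finset.mem_union, not_or, not_or] at hcon
    obtain ⟨⟨hn1, hn2⟩, hn3⟩ := hcon
    rw [hs1, Finset.mem_filter] at hn1
    rw [hs2, Finset.mem_filter] at hn2
    rw [hs3, Finset.mem_filter] at hn3
    have hn1' : ¬ ∃ p : ℕ, p.Prime ∧ z < p ∧ (p : ℤ) ^ 2 ∣ hv P.natDegree P x.1 x.2 :=
      fun h => hn1 ⟨hxs, h⟩
    have hn2' : ¬ ∃ p : ℕ, p.Prime ∧ p ≤ z ∧ ∃ e : ℕ, (H : ℝ) ^ ε' < (p : ℝ) ^ e ∧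
      (p : ℤ) ^ e ∣ hv P.natDegree P x.1 x.2 := fun h => hn2 ⟨hxs, h⟩
    have hn3' : ¬ |((hv P.natDegree P x.1 x.2 : ℤ) : ℝ)| ≤
      (H : ℝ) ^ ((P.natDegree : ℝ) - ε / 2) := fun h => hn3 ⟨hxs, h⟩
    apply hx x hxs
    set h : ℤ := hv P.natDegree P x.1 x.2 with hh
    have hn3'' : (H : ℝ) ^ ((P.natDegree : ℝ) - ε / 2) < |(h : ℝ)| := not_le.1 hn3'
    have hpos : 0 < (H : ℝ) ^ ((P.natDegree : ℝ) - ε / 2) := Real.rpow_pos_of_pos hH0 _
    have hne : h ≠ 0 := by
      intro h0
      rw [h0] at hn3''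
      simp only [Int.cast_zero, abs_zero] at hn3''
      linarith
    refine ⟨?_, hne, ?_⟩
    · intro p hp hzp hdvd
      exact hn1' ⟨p, hp, hzp, hdvd⟩
    · have habs : ((h.natAbs : ℕ) : ℝ) = |(h : ℝ)| := by
        rw [← Int.cast_natCast (R := ℝ), Int.natCast_natAbs, Int.cast_abs]
      have hlog : ((P.natDegree : ℝ) - ε / 2) * Real.log H ≤ Real.log (h.natAbs : ℕ) := by
        rw [habs, ← Real.log_rpow hH0]
        exact Real.log_le_log hpos hn3''.le
      have hcore := core h.natAbs (Int.natAbs_ne_zero.2 hne) z (Real.log H) ε' hL.le hε'0.le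
        (by
          intro p hp hzp hdvd
          apply hn1'
          refine ⟨p, hp, hzp, ?_⟩
          have : ((p ^ 2 : ℕ) : ℤ) ∣ h := Int.natCast_dvd.2 hdvd
          exact_mod_cast this)
        (by
          intro p hp hpz e hdvd
          have h5 : ¬ (H : ℝ) ^ ε' < (p : ℝ) ^ e := by
            intro h6
            apply hn2'
            refine ⟨p, hp, hpz, e, h6, ?_⟩
            have : ((p ^ e : ℕ) : ℤ) ∣ h := Int.natCast_dvd.2 hdvd
            exact_mod_cast this
          have h6 : (p : ℝ) ^ e ≤ (H : ℝ) ^ ε' := not_lt.1 h5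
          have hp0 : (0 : ℝ) < p := by exact_mod_cast hp.pos
          have h7 := Real.log_le_log (pow_pos hp0 e) h6
          rw [Real.log_pow, Real.log_rpow hH0] at h7
          exact h7)
      have h8 : ((z : ℝ) + 1) * (ε' * Real.log H) = ε / 2 * Real.log H := by
        rw [hε']
        field_simp
      rw [h8] at hcore
      have h9 : ((P.natDegree : ℝ) - ε) * Real.log H =
          ((P.natDegree : ℝ) - ε / 2) * Real.log H - ε / 2 * Real.log H := by ring
      rw [h9]
      linarith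
  have hcard : s.card ≤ s1.card + s2.card + s3.card := by
    calc s.card ≤ (s1 ∪ s2 ∪ s3).card := Finset.card_le_card hsub
      _ ≤ (s1 ∪ s2).card + s3.card := Finset.card_union_le _ _
      _ ≤ s1.card + s2.card + s3.card := by
          have := Finset.card_union_le s1 s2
          omega
  have hcard' : (s.card : ℝ) ≤ s1.card + s2.card + s3.card := by exact_mod_cast hcard
  linarith

end Pool.Agent.W781.FR.RADL
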